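import Pool.Agent.helper52.T1.SpecS
import Pool.Agent.helper41.MS.HD2

/-! Row t1:RET (MP_07c750_an): returns of a long unstable leaf have different slopes. -/

set_option autoImplicit false

open scoped MatrixGroups ContDiff Topology UpperHalfPlane ComplexConjugate
open UpperHalfPlane MeasureTheory Filter Set

namespace Pool.Agent.T1

open Pool.Agent.RS Pool.Agent.MS Pool.Agent.HV

theorem RET_eq {a b c d a' b' c' d' : ℝ} (h1 : a = a') (h2 : b = b') (h3 : c = c') (h4 : d = d') :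
    (!![a, b; c, d] : Matrix (Fin 2) (Fin 2) ℝ) = !![a', b'; c', d'] := by rw [h1, h2, h3, h4]

/-- the entries of `lM w * aM τ * nM x` -/
theorem RET_m (w τ x : ℝ) : (lM w * aM τ * nM x).1 =
    !![Real.exp (τ / 2), x * Real.exp (τ / 2); w * Real.exp (τ / 2), dX w τ x] := by
  have h : (lM w * aM τ * nM x).1 = !![1, 0; w, 1] * !![Real.exp (τ / 2), 0; 0, Real.exp (-(τ / 2))] * !![1, x; 0, 1] := rfl
  rw [h, Matrix.mul_fin_two, Matrix.mul_fin_two]
  unfold dX
  ext i j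
  fin_cases i <;> fin_cases j <;> simp <;> ring

/-- the entries of the conjugated matrix -/
theorem RET_ent (t X0 s w τ x : ℝ) : (aM t * nM (-X0) * (lM w * aM τ * nM x) * aM (-t) * lM (-s)).1 =
    !![(Real.exp (τ / 2) - X0 * (w * Real.exp (τ / 2))) - Real.exp t * (x * Real.exp (τ / 2) - X0 * dX w τ x) * s,
       Real.exp t * (x * Real.exp (τ / 2) - X0 * dX w τ x);
       Real.exp (-t) * (w * Real.exp (τ / 2)) - dX w τ x * s, dX w τ x] := by
  have h : (aM t * nM (-X0) * (lM w * aM τ * nM x) * aM (-t) * lM (-s)).1 =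
      !![Real.exp (t / 2), 0; 0, Real.exp (-(t / 2))] * !![1, -X0; 0, 1] * (lM w * aM τ * nM x).1 *
        !![Real.exp (-t / 2), 0; 0, Real.exp (-(-t / 2))] * !![1, 0; -s, 1] := rfl
  rw [h, RET_m, Matrix.mul_fin_two, Matrix.mul_fin_two, Matrix.mul_fin_two, Matrix.mul_fin_two]
  have e1 : Real.exp (-(-t / 2)) = Real.exp (t / 2) := by congr 1; ring
  have e2 : Real.exp (-t / 2) = Real.exp (-(t / 2)) := by congr 1; ring
  have e3 : Real.exp t = Real.exp (t / 2) * Real.exp (t / 2) := by rw [← Real.exp_add]; congr 1; ring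
  have e4 : Real.exp (-t) = Real.exp (-(t / 2)) * Real.exp (-(t / 2)) := by rw [← Real.exp_add]; congr 1; ring
  have e5 : Real.exp (t / 2) * Real.exp (-(t / 2)) = 1 := by rw [← Real.exp_add]; simp
  rw [e1, e2, e3, e4]
  generalize Real.exp (t / 2) = p at *
  generalize Real.exp (-(t / 2)) = q at *
  generalize Real.exp (τ / 2) = E at *
  generalize dX w τ x = d at *
  refine RET_eq ?_ ?_ ?_ ?_
  · linear_combination (E - X0 * w * E) * e5
  · ring
  · linear_combination (-d * s) * e5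
  · linear_combination d * e5

theorem RET_prod {a b : ℝ} (A B : ℝ) (hA : 0 ≤ A) (ha : |a| ≤ A) (hb : |b| ≤ B) : |a * b| ≤ A * B := by
  rw [abs_mul]; exact mul_le_mul ha hb (abs_nonneg _) hA

/-- the bounds -/
theorem RET_bd (w τ x : ℝ) (hw : |w| ≤ 1 / 1000) (hτ : |τ| ≤ 1 / 1000) (hx : |x| ≤ 1 / 1000) :
    |Real.exp (τ / 2)| ≤ 1001 / 1000 ∧ |w * Real.exp (τ / 2)| ≤ 1 / 900 ∧ |x * Real.exp (τ / 2)| ≤ 1 / 900 ∧
      |dX w τ x - 1| ≤ 1 / 400 ∧ |XX w τ x| ≤ 1 / 100 ∧ x * Real.exp (τ / 2) = XX w τ x * dX w τ x := by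
  have h2 : |τ / 2| ≤ 1 / 2000 := by rw [abs_div, abs_two]; linarith
  have hE : |Real.exp (τ / 2) - 1| ≤ 1 / 1000 := by
    have := Real.abs_exp_sub_one_le (x := τ / 2) (by linarith)
    linarith
  have hE' : |Real.exp (-(τ / 2)) - 1| ≤ 1 / 1000 := by
    have := Real.abs_exp_sub_one_le (x := -(τ / 2)) (by rw [abs_neg]; linarith)
    rw [abs_neg] at this
    linarith
  have hE1 : |Real.exp (τ / 2)| ≤ 1001 / 1000 := by
    have := abs_le.1 hE
    rw [abs_le]; constructor <;> linarith [this.1, this.2]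
  have hwE : |w * Real.exp (τ / 2)| ≤ 1 / 900 := (RET_prod _ _ (by norm_num) hw hE1).trans (by norm_num)
  have hxE : |x * Real.exp (τ / 2)| ≤ 1 / 900 := (RET_prod _ _ (by norm_num) hx hE1).trans (by norm_num)
  have hd : |dX w τ x - 1| ≤ 1 / 400 := by
    have h3 : |w * (x * Real.exp (τ / 2))| ≤ 1 / 1000 * (1 / 900) := RET_prod _ _ (by norm_num) hw hxE
    have h4 := abs_le.1 h3
    have h5 := abs_le.1 hE'
    have h6 : dX w τ x - 1 = (Real.exp (-(τ / 2)) - 1) + w * (x * Real.exp (τ / 2)) := by unfold dX; ring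
    rw [h6, abs_le]
    constructor <;> linarith [h4.1, h4.2, h5.1, h5.2]
  have hd0 : 9 / 10 ≤ dX w τ x := by linarith [(abs_le.1 hd).1]
  have hXd : x * Real.exp (τ / 2) = XX w τ x * dX w τ x := by
    unfold XX
    rw [div_mul_cancel₀]
    linarith
  refine ⟨hE1, hwE, hxE, hd, ?_, hXd⟩
  by_contra hcon
  push Not at hcon
  have h7 : |XX w τ x * dX w τ x| ≤ 1 / 900 := by rw [← hXd]; exact hxE
  rw [abs_mul, abs_of_pos (by linarith : (0 : ℝ) < dX w τ x)] at h7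
  nlinarith

theorem RET_ainv (hGLC : GLC_stmt) (t : ℝ) : (aM t)⁻¹ = aM (-t) := by
  rw [inv_eq_iff_mul_eq_one, ← hGLC.2.2.2.2.2.2.2.2.2.2.1, add_neg_cancel]
  ext i j
  fin_cases i <;> fin_cases j <;> simp [aM]

theorem RET_linv (hGLC : GLC_stmt) (t : ℝ) : (lM t)⁻¹ = lM (-t) := by
  rw [inv_eq_iff_mul_eq_one, ← hGLC.2.2.2.2.2.2.2.2.2.2.2.2.1, add_neg_cancel]
  ext i j
  fin_cases i <;> fin_cases j <;> simp [lM]

theorem RET_proof (hGLC : RS.GLC_stmt) : RET_stmt := by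
  intro Γ hΓ
  obtain ⟨N₀, hN₀⟩ := Pool.Agent.MS.HD2_fin Γ hΓ
  refine ⟨(N₀ : ℝ) + 1, by linarith [(Nat.cast_nonneg N₀ : (0 : ℝ) ≤ N₀)], ?_⟩
  intro N0 k h z X0 T hN0 hT
  have hlm := hGLC.2.2.2.2.2.2.2.2.2.2.2.2.1
  have hla := hGLC.2.2.2.2.2.2.2.2.2.2.2.2.2.2.2.2.2.2.1
  set t : ℝ := k * Real.log N0 with ht
  have hNpos : (0 : ℝ) < N0 := by
    have : (2 : ℝ) ≤ N0 := by exact_mod_cast hN0
    linarith
  have hN1 : (1 : ℝ) ≤ (N0 : ℝ) ^ k := by
    apply one_le_pow₀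
    have : (2 : ℝ) ≤ N0 := by exact_mod_cast hN0
    linarith
  have het : Real.exp t = (N0 : ℝ) ^ k := by rw [ht, Real.exp_nat_mul, Real.exp_log hNpos]
  have het' : Real.exp (-t) ≤ 1 := by
    rw [Real.exp_neg, het]; exact inv_le_one_of_one_le₀ hN1
  have het0 : 0 ≤ Real.exp (-t) := (Real.exp_pos _).le
  choose! hc γ w τ x hw hτ hx hrel hX using hT
  -- the elements
  set y : SL(2, ℝ) := (aM t * nM (-X0) * z⁻¹)⁻¹ with hy
  have hent : ∀ c ∈ T, ∀ i j, |(y⁻¹ * (γ c : SL(2, ℝ)) * h).1 i j| ≤ 8 := by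
    intro c hcT
    set s : ℝ := 4 * ((c : ℝ) / N0 ^ k) with hs
    have hs0 : 0 ≤ s := by positivity
    have hs4 : s ≤ 4 := by
      have h1 : (c : ℝ) ≤ (N0 : ℝ) ^ k := by exact_mod_cast (hc c hcT).le
      have h2 : (c : ℝ) / N0 ^ k ≤ 1 := (div_le_one (by linarith)).2 h1
      rw [hs]; linarith
    have h1 : y⁻¹ * (γ c : SL(2, ℝ)) * h = aM t * nM (-X0) * (lM (w c) * aM (τ c) * nM (x c)) * aM (-t) * lM (-s) := by
      have h2 := hrel c hcT
      rw [← hs] at h2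
      rw [hy, inv_inv, ← RET_ainv hGLC, ← RET_linv hGLC]
      have h3 : (γ c : SL(2, ℝ)) * h = z * lM (w c) * aM (τ c) * nM (x c) * (aM t)⁻¹ * (lM s)⁻¹ := by
        rw [← h2]; group
      rw [mul_assoc _ (γ c : SL(2, ℝ)) h, h3]
      group
    obtain ⟨b1, b2, b3, b4, b5, b6⟩ := RET_bd (w c) (τ c) (x c) (hw c hcT) (hτ c hcT) (hx c hcT)
    have b4' := abs_le.1 b4
    have hd : |dX (w c) (τ c) (x c)| ≤ 101 / 100 := by rw [abs_le]; constructor <;> linarith [b4'.1, b4'.2]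
    have hX1 := hX c hcT
    have hX0 : |X0| ≤ 101 / 100 := by
      have h3 : 1 / (N0 : ℝ) ^ k ≤ 1 := (div_le_one (by linarith)).2 hN1
      have h4 := abs_le.1 (hX1.trans h3)
      have h5 := abs_le.1 b5
      rw [abs_le]; constructor <;> linarith [h4.1, h4.2, h5.1, h5.2]
    have hm00 : |Real.exp (τ c / 2) - X0 * (w c * Real.exp (τ c / 2))| ≤ 11 / 10 := by
      have h3 := RET_prod _ _ (by norm_num) hX0 b2
      have h4 := abs_le.1 h3
      have h5 := abs_le.1 b1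
      rw [abs_le]; constructor <;> linarith [h4.1, h4.2, h5.1, h5.2]
    have hm01 : |Real.exp t * (x c * Real.exp (τ c / 2) - X0 * dX (w c) (τ c) (x c))| ≤ 101 / 100 := by
      rw [b6, ← sub_mul, ← mul_assoc, abs_mul, abs_mul, abs_of_pos (Real.exp_pos t), het]
      have h3 : (N0 : ℝ) ^ k * |XX (w c) (τ c) (x c) - X0| ≤ 1 := by
        calc (N0 : ℝ) ^ k * |XX (w c) (τ c) (x c) - X0| ≤ (N0 : ℝ) ^ k * (1 / (N0 : ℝ) ^ k) :=
              mul_le_mul_of_nonneg_left hX1 (by linarith)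
          _ = 1 := by field_simp
      calc _ ≤ 1 * (101 / 100) := mul_le_mul h3 hd (abs_nonneg _) (by norm_num)
        _ = 101 / 100 := by norm_num
    have hs' : |s| ≤ 4 := by rw [abs_of_nonneg hs0]; exact hs4
    have k1 := abs_le.1 (RET_prod _ _ (by norm_num) hm01 hs')
    have k2 := abs_le.1 (RET_prod _ _ (by norm_num) hd hs')
    have k3 := abs_le.1 (RET_prod 1 _ (by norm_num) (by rw [abs_of_nonneg het0]; exact het' : |Real.exp (-t)| ≤ 1) b2)
    have k4 := abs_le.1 hm00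
    have k5 := abs_le.1 hm01
    have k6 := abs_le.1 hd
    rw [h1]
    intro i j
    rw [RET_ent]
    fin_cases i <;> fin_cases j
    · show |(Real.exp (τ c / 2) - X0 * (w c * Real.exp (τ c / 2))) - Real.exp t * (x c * Real.exp (τ c / 2) - X0 * dX (w c) (τ c) (x c)) * s| ≤ 8
      rw [abs_le]; constructor <;> linarith [k1.1, k1.2, k4.1, k4.2]
    · show |Real.exp t * (x c * Real.exp (τ c / 2) - X0 * dX (w c) (τ c) (x c))| ≤ 8
      rw [abs_le]; constructor <;> linarith [k5.1, k5.2]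
    · show |Real.exp (-t) * (w c * Real.exp (τ c / 2)) - dX (w c) (τ c) (x c) * s| ≤ 8
      rw [abs_le]; constructor <;> linarith [k2.1, k2.2, k3.1, k3.2]
    · show |dX (w c) (τ c) (x c)| ≤ 8
      rw [abs_le]; constructor <;> linarith [k6.1, k6.2]
  -- injectivity
  have hinj : ∀ c ∈ T, ∀ c' ∈ T, γ c = γ c' → c = c' := by
    intro c hcT c' hcT' hγ
    have h1 : lM (w c') * aM (τ c') * nM (x c') = (lM (w c) * aM (τ c) * nM (x c)) * lM (4 * ((c' : ℝ) - c)) := by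
      have e1 : lM (4 * ((c' : ℝ) / N0 ^ k)) = lM (4 * ((c : ℝ) / N0 ^ k)) * lM (4 * ((c' : ℝ) - c) / N0 ^ k) := by
        rw [← hlm]; congr 1; ring
      have e2 : lM (4 * ((c' : ℝ) - c) / N0 ^ k) * aM t = aM t * lM (4 * ((c' : ℝ) - c)) := by
        rw [hla, het]; congr 2; field_simp
      have h2 := hrel c hcT
      have h3 := hrel c' hcT'
      rw [← hγ, e1] at h3
      have h4 : z * (lM (w c') * aM (τ c') * nM (x c')) = z * ((lM (w c) * aM (τ c) * nM (x c)) * lM (4 * ((c' : ℝ) - c))) := by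
        calc z * (lM (w c') * aM (τ c') * nM (x c')) = z * lM (w c') * aM (τ c') * nM (x c') := by group
          _ = (γ c : SL(2, ℝ)) * (h * (lM (4 * ((c : ℝ) / N0 ^ k)) * lM (4 * ((c' : ℝ) - c) / N0 ^ k)) * aM t) := h3.symm
          _ = (γ c : SL(2, ℝ)) * (h * lM (4 * ((c : ℝ) / N0 ^ k)) * (lM (4 * ((c' : ℝ) - c) / N0 ^ k) * aM t)) := by group
          _ = (γ c : SL(2, ℝ)) * (h * lM (4 * ((c : ℝ) / N0 ^ k)) * (aM t * lM (4 * ((c' : ℝ) - c)))) := by rw [e2]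
          _ = ((γ c : SL(2, ℝ)) * (h * lM (4 * ((c : ℝ) / N0 ^ k)) * aM t)) * lM (4 * ((c' : ℝ) - c)) := by group
          _ = (z * lM (w c) * aM (τ c) * nM (x c)) * lM (4 * ((c' : ℝ) - c)) := by rw [h2]
          _ = _ := by group
      exact mul_left_cancel h4
    have h2 : (lM (w c') * aM (τ c') * nM (x c')).1 1 0 = ((lM (w c) * aM (τ c) * nM (x c)) * lM (4 * ((c' : ℝ) - c))).1 1 0 := by rw [h1]
    have h3 : ((lM (w c) * aM (τ c) * nM (x c)) * lM (4 * ((c' : ℝ) - c))).1 = (lM (w c) * aM (τ c) * nM (x c)).1 * !![1, 0; 4 * ((c' : ℝ) - c), 1] := rfl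
    rw [h3, RET_m, RET_m, Matrix.mul_fin_two] at h2
    have h4 : w c' * Real.exp (τ c' / 2) = w c * Real.exp (τ c / 2) * 1 + dX (w c) (τ c) (x c) * (4 * ((c' : ℝ) - c)) := h2
    obtain ⟨-, b2, -, b4, -, -⟩ := RET_bd (w c) (τ c) (x c) (hw c hcT) (hτ c hcT) (hx c hcT)
    obtain ⟨-, b2', -, -, -, -⟩ := RET_bd (w c') (τ c') (x c') (hw c' hcT') (hτ c' hcT') (hx c' hcT')
    have b4' := abs_le.1 b4
    have b2a := abs_le.1 b2
    have b2b := abs_le.1 b2'
    have hlt : |(c' : ℝ) - c| < 1 := by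
      by_contra hcon
      push Not at hcon
      have h5 : |dX (w c) (τ c) (x c) * (4 * ((c' : ℝ) - c))| ≤ 1 / 2 := by
        rw [abs_le]; constructor <;> linarith [b2a.1, b2a.2, b2b.1, b2b.2]
      rw [abs_mul, abs_mul, abs_of_pos (by linarith [b4'.1] : (0 : ℝ) < dX (w c) (τ c) (x c)), abs_of_pos (by norm_num : (0 : ℝ) < 4)] at h5
      nlinarith [b4'.1]
    have h6 : |((c' : ℤ) - (c : ℤ))| < 1 := by exact_mod_cast hlt
    have h7 := Int.abs_lt_one_iff.1 h6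
    omega
  have hfin := hN₀ y h
  have hcard : T.card ≤ N₀ := by
    have h1 : (T.image γ).card = T.card := Finset.card_image_of_injOn (fun c hc' c' hc'' e => hinj c hc' c' hc'' e)
    rw [← h1]
    refine le_trans ?_ hfin.2
    rw [Set.ncard_eq_toFinset_card _ hfin.1]
    apply Finset.card_le_card
    intro g hg
    rw [Finset.mem_image] at hg
    obtain ⟨c, hc', rfl⟩ := hg
    rw [Set.Finite.mem_toFinset]
    exact hent c hc'
  have : (T.card : ℝ) ≤ N₀ := by exact_mod_cast hcard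
  linarith

end Pool.Agent.T1
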